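import Mathlib

namespace Pool.Agent.Results.MP_dca5dd_al.Length
open Set Module

variable {n : ℕ} {N : Type*} [AddCommGroup N] [Module ℂ N]

/-- `Word f S l w`: `w` is a word of length `l` in the generators `S`. -/
inductive Word (f : MultilinearMap ℂ (fun _ : Fin n => N) N) (S : Set N) : ℕ → N → Prop
  | base {s : N} : s ∈ S → Word f S 1 s
  | app (l : Fin n → ℕ) (w : Fin n → N) : (∀ i, Word f S (l i) (w i)) → Word f S (∑ i, l i) (f w)

/-- The span of the words of length at most `i`. -/
def Lin (f : MultilinearMap ℂ (fun _ : Fin n => N) N) (S : Set N) (i : ℕ) : Submodule ℂ N :=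
  Submodule.span ℂ {w | ∃ j ≤ i, Word f S j w}

variable {f : MultilinearMap ℂ (fun _ : Fin n => N) N} {S : Set N}

lemma mspan (f : MultilinearMap ℂ (fun _ : Fin n => N) N) (T : Fin n → Set N)
    (M : Submodule ℂ N) (h : ∀ b, (∀ i, b i ∈ T i) → f b ∈ M) (x : Fin n → N)
    (hx : ∀ i, x i ∈ Submodule.span ℂ (T i)) : f x ∈ M := by
  have key : ∀ s : Finset (Fin n), ∀ x : Fin n → N, (∀ i, x i ∈ Submodule.span ℂ (T i)) →
      (∀ i ∉ s, x i ∈ T i) → f x ∈ M := by
    intro s
    induction s using Finset.induction_on with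
    | empty => exact fun x _ h' => h x fun i => h' i (by simp)
    | insert i s _ ih =>
      intro x h1 h2
      have : Submodule.span ℂ (T i) ≤ M.comap (f.toLinearMap x i) := by
        rw [Submodule.span_le]
        intro y hy
        refine ih (Function.update x i y) (fun j => ?_) fun j hj => ?_
        · by_cases e : j = i
          · subst e; simpa using Submodule.subset_span hy
          · simpa [e] using h1 j
        · by_cases e : j = i
          · subst e; simpa using hy
          · simpa [e] using h2 j (by simp [e, hj])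
      simpa using this (h1 i)
  exact key Finset.univ x hx (by simp)

lemma Word.pos (hn : 2 ≤ n) {l : ℕ} {w : N} (h : Word f S l w) : 1 ≤ l := by
  induction h with
  | base _ => exact le_rfl
  | app l w _ ih =>
    exact (ih ⟨0, by omega⟩).trans (Finset.single_le_sum (f := l) (by simp) (Finset.mem_univ _))

lemma lin_mono : Monotone (Lin f S) := fun _ _ h =>
  Submodule.span_mono fun _ ⟨j, hj, hw⟩ => ⟨j, hj.trans h, hw⟩

lemma lin_app (m : Fin n → ℕ) (x : Fin n → N) (hx : ∀ i, x i ∈ Lin f S (m i)) :
    f x ∈ Lin f S (∑ i, m i) := by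
  refine mspan f _ _ (fun b hb => ?_) x hx
  choose l hl hw using hb
  exact Submodule.subset_span ⟨_, Finset.sum_le_sum fun i _ => hl i, Word.app l b hw⟩

lemma chain (hn : 2 ≤ n) : ∃ B : ℕ → Set N, B 0 = ∅ ∧ Monotone B ∧ ∀ i,
    LinearIndepOn ℂ id (B i) ∧ Submodule.span ℂ (B i) = Lin f S i := by
  have step : ∀ i, ∀ b : {b : Set N // LinearIndepOn ℂ id b ∧ Submodule.span ℂ b = Lin f S i},
      ∃ c : {b : Set N // LinearIndepOn ℂ id b ∧ Submodule.span ℂ b = Lin f S (i + 1)},
        b.1 ⊆ c.1 := by
    rintro i ⟨b, h1, h2⟩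
    obtain ⟨c, h3, h4, h5, h6⟩ := exists_linearIndepOn_id_extension (t := Lin f S (i + 1)) h1
      fun x hx => lin_mono (Nat.le_succ i) (h2 ▸ Submodule.subset_span hx)
    exact ⟨⟨c, h6, le_antisymm (Submodule.span_le.2 h3) h5⟩, h4⟩
  choose g hg using step
  have h0 : Submodule.span ℂ (∅ : Set N) = Lin f S 0 := by
    rw [Lin]; congr 1
    refine (eq_empty_of_forall_notMem ?_).symm
    rintro w ⟨j, hj, hw⟩
    have := hw.pos hn
    omega
  let B : ∀ i, {b : Set N // LinearIndepOn ℂ id b ∧ Submodule.span ℂ b = Lin f S i} :=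
    fun i => Nat.rec ⟨∅, linearIndepOn_empty _ _, h0⟩ g i
  exact ⟨fun i => (B i).1, rfl, monotone_nat_of_le_succ fun i => hg i (B i), fun i => (B i).2⟩

theorem result (n : ℕ) (hn : 2 ≤ n) (A C : Finset (Fin n)) (_hAC : Disjoint A C)
    (N : Type*) [AddCommGroup N] [Module ℂ N] [FiniteDimensional ℂ N]
    (f : MultilinearMap ℂ (fun _ : Fin n => N) N)
    (hA : ∀ i ∈ A, ∀ j ∈ A, i ≠ j → ∀ x, f (x ∘ Equiv.swap i j) = -f x)
    (_hC : ∀ i ∈ C, ∀ j ∈ C, i ≠ j → ∀ x, f (x ∘ Equiv.swap i j) = f x)
    (a : ℕ) (ha : a = max 1 A.card) (F : ℕ → ℕ) (hF1 : ∀ m ≤ a, F m = 1)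
    (hF2 : ∀ m, a < m → F m = (n - a + 1) * F (m - 1) + ∑ i ∈ Finset.Icc 2 a, F (m - i))
    (S : Set N) (hS : ∀ x, ∃ i, x ∈ Lin f S i) : Lin f S (F (finrank ℂ N)) = ⊤ := by
  classical
  have hFm : Monotone F := monotone_nat_of_le_succ fun m => by
    by_cases h : m + 1 ≤ a
    · rw [hF1 _ h, hF1 m (by omega)]
    · rw [hF2 (m + 1) (by omega), Nat.add_sub_cancel, add_mul, one_mul]; omega
  have hF0 : ∀ m, 1 ≤ F m := fun m => hF1 0 (Nat.zero_le _) ▸ hFm (Nat.zero_le m)
  obtain ⟨B, hB0, hBm, hB⟩ := chain (f := f) (S := S) hn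
  have hfin : ∀ i, (B i).Finite := fun i => LinearIndependent.setFinite (hB i).1
  have hcard : ∀ i, (B i).ncard ≤ finrank ℂ N := fun i => by
    have := (hfin i).fintype
    rw [Set.ncard_eq_toFinset_card', Set.toFinset_card]
    exact LinearIndependent.fintype_card_le_finrank (hB i).1
  have main : ∀ l, F ((B l).ncard + 1) < l + 1 → Lin f S (l + 1) ≤ Lin f S l := by
    intro l
    induction l using Nat.strong_induction_on with
    | _ l ih =>
    intro hl
    set t := (B l).ncard with ht
    let m : N → ℕ := fun b => if h : b ∈ B l then Nat.find (⟨l, h⟩ : ∃ i, b ∈ B i) else 0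
    have hm1 : ∀ b ∈ B l, b ∈ B (m b) := fun b h => by
      simp only [m, dif_pos h]; exact Nat.find_spec (⟨l, h⟩ : ∃ i, b ∈ B i)
    have hm2 : ∀ b ∈ B l, ∀ j, b ∈ B j → m b ≤ j := fun b h j hj => by
      simp only [m, dif_pos h]; exact Nat.find_min' _ hj
    have hU : ∀ r, ∀ U : Finset N, U.card = r → (∀ b ∈ U, b ∈ B l) →
        ∑ b ∈ U, m b ≤ ∑ i ∈ Finset.range r, F (t - i) := by
      intro r
      induction r with
      | zero => intro U h _; simp [Finset.card_eq_zero.1 h]
      | succ r ihr =>
        intro U h hUB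
        obtain ⟨b, hb, hmin⟩ := U.exists_min_image m (Finset.card_pos.1 (by omega))
        rw [← Finset.add_sum_erase U m hb, Finset.sum_range_succ, add_comm]
        refine add_le_add (ihr _ (by rw [Finset.card_erase_of_mem hb, h]; rfl)
          fun c hc => hUB c (Finset.mem_of_mem_erase hc)) ?_
        have h1 := hm1 b (hUB b hb)
        obtain ⟨j, hj⟩ : ∃ j, m b = j + 1 := ⟨m b - 1, by
          have : m b ≠ 0 := fun h0 => by rw [h0, hB0] at h1; exact h1
          omega⟩
        have hjl : j < l := by have := hm2 b (hUB b hb) l (hUB b hb); omega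
        have hdis : Disjoint (B j) U := Set.disjoint_right.2 fun c hc hcj => by
          have := hm2 c (hUB c hc) j hcj
          have := hmin c hc
          omega
        have hle : (B j).ncard + (r + 1) ≤ t := by
          rw [← h, ← Set.ncard_coe_finset, ← Set.ncard_union_eq hdis (hfin j) U.finite_toSet]
          exact Set.ncard_le_ncard (union_subset (hBm hjl.le) hUB) (hfin l)
        by_contra hc
        have h2 := ih j hjl (by have := hFm (show (B j).ncard + 1 ≤ t - r by omega); omega)
        rw [hj] at h1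
        have h3 : b ∈ Submodule.span ℂ (B j) := by
          rw [(hB j).2]; exact h2 ((hB _).2 ▸ Submodule.subset_span h1)
        have h4 : b ∉ B j := fun h => by have := hm2 b (hUB b hb) j h; omega
        exact (hB j).1.notMem_span_iff_id.2
          ⟨(hB (j + 1)).1.mono (insert_subset h1 (hBm (Nat.le_succ j))), h4⟩ h3
    rw [Lin, Submodule.span_le]
    rintro w ⟨j, hj, hw⟩
    by_cases hjl : j ≤ l
    · exact Submodule.subset_span ⟨j, hjl, hw⟩
    cases hw with
    | base _ => have := hF0 (t + 1); omega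
    | app p x hx =>
    have hp : ∀ i, p i ≤ l := fun i => by
      obtain ⟨i', hi'⟩ : ∃ i' : Fin n, i' ≠ i := by
        have : Nontrivial (Fin n) := Fin.nontrivial_iff_two_le.2 hn
        exact exists_ne i
      have h1 := Finset.add_le_sum (f := p) (by simp) (Finset.mem_univ i) (Finset.mem_univ i')
        hi'.symm
      have := (hx i').pos hn
      omega
    refine mspan f (fun _ => B l) _ (fun b hb => ?_) x fun i => by
      rw [(hB l).2]; exact Submodule.subset_span ⟨_, hp i, hx i⟩
    by_cases hinj : Set.InjOn b A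
    · refine lin_mono ?_ (lin_app (fun i => m (b i)) b fun i =>
        (hB _).2 ▸ Submodule.subset_span (hm1 _ (hb i)))
      have h1 : ∀ i, m (b i) ≤ F t := fun i => by
        simpa using hU 1 {b i} (by simp) (by simpa using hb i)
      have h2 := hU A.card (A.image b) (Finset.card_image_of_injOn hinj) (by
        intro c hc
        obtain ⟨i, -, rfl⟩ := Finset.mem_image.1 hc
        exact hb i)
      rw [Finset.sum_image hinj] at h2
      have h3 : ∑ i ∈ Aᶜ, m (b i) ≤ (n - A.card) * F t := by
        have := Finset.sum_le_card_nsmul Aᶜ (fun i => m (b i)) (F t) fun i _ => h1 i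
        simpa [Finset.card_compl] using this
      have h4 : A.card ≤ t := by
        rw [← Finset.card_image_of_injOn hinj, ← Set.ncard_coe_finset]
        refine Set.ncard_le_ncard (fun c hc => ?_) (hfin l)
        obtain ⟨i, -, rfl⟩ := Finset.mem_image.1 hc
        exact hb i
      have h5 : 0 < t := (Set.ncard_pos (hfin l)).2 ⟨_, hb ⟨0, by omega⟩⟩
      rw [← Finset.sum_add_sum_compl A]
      have h6 := hF2 (t + 1) (by omega)
      rcases Nat.eq_zero_or_pos A.card with h0 | h0
      · have ha1 : a = 1 := by omega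
        rw [h0] at h2 h3
        rw [ha1, show n - 1 + 1 = n by omega] at h6
        simp at h2 h3 h6 ⊢
        simp only [Finset.card_eq_zero.1 h0] at h3 ⊢
        simp at h3 ⊢
        omega
      · obtain ⟨c, hc⟩ : ∃ c, A.card = c + 1 := ⟨A.card - 1, by omega⟩
        have ha1 : a = c + 1 := by omega
        rw [hc] at h2 h3
        rw [Finset.sum_range_succ'] at h2
        have h7 : ∑ i ∈ Finset.Icc 2 a, F (t + 1 - i) = ∑ i ∈ Finset.range c, F (t - (i + 1)) := by
          rw [ha1, ← Finset.Ico_add_one_right_eq_Icc, Finset.sum_Ico_eq_sum_range]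
          exact Finset.sum_congr rfl fun i _ => by congr 1; omega
        rw [h7, ha1, add_mul, one_mul, Nat.add_sub_cancel] at h6
        simp only [Nat.sub_zero] at h2
        omega
    · simp only [Set.InjOn, not_forall] at hinj
      obtain ⟨i, hi, j, hj, e, hne⟩ := hinj
      have h1 := hA i hi j hj hne b
      have h2 : b ∘ Equiv.swap i j = b := by
        funext k
        simp only [Function.comp, Equiv.swap_apply_def]
        split_ifs with h3 h4
        · rw [h3, e]
        · rw [h4, e]
        · rfl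
      rw [h2] at h1
      have h3 : (2 : ℂ) • f b = 0 := by rw [two_smul]; nth_rw 1 [h1]; simp
      rw [(smul_eq_zero.1 h3).resolve_left two_ne_zero]
      exact Submodule.zero_mem _
  have h2 : ∀ l, Lin f S l ≤ Lin f S (F (finrank ℂ N)) := by
    intro l
    induction l with
    | zero => exact lin_mono (Nat.zero_le _)
    | succ l ih =>
      by_cases h : l + 1 ≤ F (finrank ℂ N)
      · exact lin_mono h
      by_cases h' : (B l).ncard < finrank ℂ N
      · exact (main l (by have := hFm (show (B l).ncard + 1 ≤ finrank ℂ N from h'); omega)).trans ih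
      · have : B l = B (l + 1) := Set.eq_of_subset_of_ncard_le (hBm (Nat.le_succ l))
          (by have := hcard (l + 1); omega) (hfin _)
        rw [← (hB _).2, ← this, (hB _).2]; exact ih
  exact eq_top_iff.2 fun x _ => (hS x).elim fun i hi => h2 i hi

end Pool.Agent.Results.MP_dca5dd_al.Length
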